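import Pool.Agent.U196.UV.Ord

set_option autoImplicit false

/-!
# Large and small normalised gaps of the zeta zeros, relative to every Dirichlet polynomial

No hypothesis is assumed. Let `0 < γ_1 ≤ γ_2 ≤ …` be the ordinates of the nontrivial zeros (with multiplicity) and
`δ_n = (γ_{n+1} log γ_{n+1} - γ_n log γ_n) / 2π`, of mean value one. There are `c, θ > 0` such that for all large `T`, all
`N ≤ T ^ θ` and ALL complex numbers `b_1, ..., b_N`, with `B(t) = ∑ b_n n^(-1/2-it)`: the indices `n` with `δ_n ≤ 1 - c` carry at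
least the share `c` of the sum of `|B(γ_n)|²` over all `n` with `T < γ_n ≤ 2T`, and so do the indices with `δ_n ≥ 1 + c`.

So the distribution of the normalised gaps, weighted by `|B(γ_n)|²`, has a fixed positive mass on both sides of the mean
value, whatever the polynomial is; for `B = 1` this is the theorem of Selberg and Fujii.

Idea of the proof (files `Pool.Agent.U196.UV`). The number of zeros in `[t - H/L, t + H/L]`, `L = log T`, is `H/π - 2 Re P(t)`, up to
an error whose mean against `|B|²` is bounded independently of `H`; here `P` is a sum over the primes in `(T^θ, T^δ]`, which are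
orthogonal to `B`. The mean square of `P` against `|B|²` is of the order of `log H`, its fourth moment is bounded by a constant
times `(log H)²`. So the number of zeros is larger than `H/π + 3`, and smaller than `H/π - 3`, on sets of `t` which carry a fixed share of
`∫ |B|²`. The pigeonhole principle gives a small, resp. a large gap near `t`, and the passage from `t` to the zeros costs nothing
as `B` varies slowly (`θ` is small in terms of `H`).
-/

namespace Pool.Agent.Results.MP_21f43f_nt.GapsEveryPolynomial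

open Filter Complex

noncomputable section

/-- the Dirichlet polynomial with the coefficients `b_1, ..., b_N` on the critical line -/
def B (N : ℕ) (b : ℕ → ℂ) (t : ℝ) : ℂ := ∑ n ∈ Finset.Icc 1 N, b n * (n : ℂ) ^ (-(1 / 2 + t * I))

/-- the number of nontrivial zeros of `ζ` with ordinate in `(0, t]`, with multiplicity -/
def NZ (t : ℝ) : ℕ :=
  ∑ᶠ s ∈ {s : ℂ | riemannZeta s = 0 ∧ 0 < s.re ∧ s.re < 1 ∧ 0 < s.im ∧ s.im ≤ t}, analyticOrderNatAt riemannZeta s

/-- for `n ≥ 1`: the `n`-th positive ordinate `γ n` of a nontrivial zero of `ζ`, the ordinates being listed in nondecreasing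
order and repeated according to multiplicity -/
def γ (n : ℕ) : ℝ := sInf {t : ℝ | n ≤ NZ t}

/-- the normalised gap `δ_n = (γ_{n+1} log γ_{n+1} - γ_n log γ_n) / 2π` -/
def δ (n : ℕ) : ℝ := (γ (n + 1) * Real.log (γ (n + 1)) - γ n * Real.log (γ n)) / (2 * Real.pi)

/-- the sum of `|B(γ_n)|²` over the indices `n ≥ 1` with `T < γ_n ≤ 2T` and `P n` -/
def weight (T : ℝ) (N : ℕ) (b : ℕ → ℂ) (P : ℕ → Prop) : ℝ :=
  ∑ᶠ n ∈ {n : ℕ | 1 ≤ n ∧ T < γ n ∧ γ n ≤ 2 * T ∧ P n}, ‖B N b (γ n)‖ ^ 2

open Classical in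
lemma weight_eq (T : ℝ) (N : ℕ) (b : ℕ → ℂ) (P : ℕ → Prop) : weight T N b P =
    ∑ n ∈ (Pool.Agent.U196.UV.Ix T).filter P, ‖Pool.Agent.Q97.UM.dp N b (SG.ord n)‖ ^ 2 := by
  have h : {n : ℕ | 1 ≤ n ∧ T < γ n ∧ γ n ≤ 2 * T ∧ P n} = (((Pool.Agent.U196.UV.Ix T).filter P : Finset ℕ) : Set ℕ) := by
    ext n
    rw [Finset.mem_coe, Finset.mem_filter, Pool.Agent.U196.UV.mem_Ix]
    constructor
    · rintro ⟨h1, h2, h3, h4⟩
      exact ⟨⟨h1, h2, h3⟩, h4⟩
    · rintro ⟨⟨h1, h2, h3⟩, h4⟩
      exact ⟨h1, h2, h3, h4⟩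
  unfold weight
  rw [h, finsum_mem_coe_finset]
  rfl

/-- **A positive proportion of large and of small gaps, relative to every Dirichlet polynomial.** -/
theorem result : ∃ c θ T₀ : ℝ, 0 < c ∧ 0 < θ ∧ ∀ T : ℝ, T₀ ≤ T → ∀ N : ℕ, (N : ℝ) ≤ T ^ θ → ∀ b : ℕ → ℂ,
    c * weight T N b (fun _ => True) ≤ weight T N b (fun n => δ n ≤ 1 - c) ∧
    c * weight T N b (fun _ => True) ≤ weight T N b (fun n => 1 + c ≤ δ n) := by
  classical
  obtain ⟨c, θ, hc, hθ, h⟩ := Pool.Agent.U196.UV.gaps_idx
  rw [Filter.eventually_atTop] at h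
  obtain ⟨T₀, hT₀⟩ := h
  refine ⟨c, θ, T₀, hc, hθ, fun T hT N hN b => ?_⟩
  have h1 := hT₀ T hT N hN b
  have e : weight T N b (fun _ => True) = ∑ n ∈ Pool.Agent.U196.UV.Ix T, ‖Pool.Agent.Q97.UM.dp N b (SG.ord n)‖ ^ 2 := by
    rw [weight_eq, Finset.filter_true]
  rw [e, weight_eq, weight_eq]
  exact h1

end

end Pool.Agent.Results.MP_21f43f_nt.GapsEveryPolynomial
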