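import Pool.Agent.U403.Ldp.Fin
import Pool.Agent.H177R3.LatD

/-!
# Large deviations of the sums of consecutive gaps: the GUE rate function

The Riemann hypothesis is assumed, as in the problem, and the gaps `δ_n` are normalised as there. Let
`S_r(n) = δ_n + δ_{n+1} + … + δ_{n+r-1}`; its mean value is `r`. The distribution of `(S_r(n) - r) / log r`, `n ≤ N`,
in the limit `N → ∞` and then `r → ∞`, satisfies the large deviation principle with speed `log r` and the rate
function `π² x² / 2` on the whole line: for every set `E` of real numbers the proportion of the `n ≤ N` with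
`(S_r(n) - r) / log r ∈ E` is at most `r ^ (- π² m / 2 + o (1))`, `m` the infimum of `x²` on `E`, and at least
`r ^ (- π² m' / 2 + o (1))`, `m'` the infimum of `x²` on the interior of `E`. For example the proportion of the
`n ≤ N` with `S_r(n) ≥ r + x log r` is `r ^ (- π² x² / 2 + o (1))` for `x ≥ 0`.

Proof. Upper bounds: high moments of short Dirichlet polynomials. Lower bounds: Laplace transforms of the part of the
prime sum with `T ^ (1 / r) < p < T ^ (r ^ (- 1 / K))` from finitely many (exponentially many in `log r`) moments, and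
Cramér's change of measure. The error of the explicit formula (smooth weights, Riemann hypothesis) is `ε log r`
except on a set of heights of measure `r ^ (- A) T` for every `A`. Passage from heights to zeros with the same
precision.
-/

set_option autoImplicit false

open Filter

namespace Pool.Agent.Results.MP_21f43f_nt.LargeDeviations

/-- multiplicity of `s` as a zero of the Riemann zeta function (order of vanishing at `s`) -/
noncomputable def zmult (s : ℂ) : ℕ := analyticOrderNatAt riemannZeta s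

/-- the number of nontrivial zeros of `ζ` with ordinate in `(0, t]`, with multiplicity -/
noncomputable def NZ (t : ℝ) : ℕ :=
  ∑ᶠ s ∈ {s : ℂ | riemannZeta s = 0 ∧ 0 < s.re ∧ s.re < 1 ∧ 0 < s.im ∧ s.im ≤ t}, zmult s

/-- for `n ≥ 1`: the `n`-th positive ordinate `γ n` of a nontrivial zero of `ζ`, the ordinates being
listed in nondecreasing order and repeated according to multiplicity -/
noncomputable def γ (n : ℕ) : ℝ := sInf {t : ℝ | n ≤ NZ t}

/-- the normalised ordinates `γ log γ / 2π` -/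
noncomputable def γt (n : ℕ) : ℝ := 1 / (2 * Real.pi) * γ n * Real.log (γ n)

/-- the normalised gaps -/
noncomputable def δ (n : ℕ) : ℝ := γt (n + 1) - γt n

/-- the sum `δ_n + δ_{n+1} + … + δ_{n+r-1}` of `r` consecutive gaps -/
noncomputable def S (r n : ℕ) : ℝ := ∑ i ∈ Finset.range r, δ (n + i)

/-- the number of the `n ≤ N` with `(S_r(n) - r) / log r ∈ E` -/
noncomputable def count (E : Set ℝ) (r N : ℕ) : ℕ :=
  {n : ℕ | 1 ≤ n ∧ n ≤ N ∧ (S r n - r) / Real.log r ∈ E}.ncard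

theorem St_eq (r n : ℕ) : Pool.Agent.U403.Ldp.St r n = S r n := by
  unfold S δ
  have e : ∀ i ∈ Finset.range r, γt (n + i + 1) - γt (n + i) = γt (n + (i + 1)) - γt (n + i) := fun i _ => by
    rw [add_assoc]
  rw [Finset.sum_congr rfl e, Finset.sum_range_sub (fun i => γt (n + i)) r, add_zero]
  rfl

theorem upper (RH : RiemannHypothesis) (E : Set ℝ) (m ε : ℝ) (hε : 0 < ε) (hm : ∀ x ∈ E, m ≤ x ^ 2) :
    ∃ r₀ : ℕ, ∀ r : ℕ, r₀ ≤ r → ∃ N₀ : ℕ, ∀ N : ℕ, N₀ ≤ N →
      (count E r N : ℝ) ≤ (r : ℝ) ^ (-(Real.pi ^ 2 * m / 2) + ε) * N := by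
  classical
  have hcl : ∀ r N : ℕ, (count E r N : ℝ) = (((Finset.Icc 1 N).filter (fun n =>
      (S r n - r) / Real.log r ∈ E)).card : ℝ) := by
    intro r N
    unfold count
    rw [← Set.ncard_coe_finset]
    congr 2
    ext n
    rw [Finset.mem_coe, Finset.mem_filter, Finset.mem_Icc, Set.mem_ofPred_eq, and_assoc]
  rcases le_or_gt m 0 with hm0 | hm0
  · refine ⟨1, fun r hr => ⟨0, fun N _ => ?_⟩⟩
    have hr1 : (1 : ℝ) ≤ r := by exact_mod_cast hr
    have h1 := Finset.card_filter_le (Finset.Icc 1 N) (fun n => (S r n - r) / Real.log r ∈ E)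
    rw [Nat.card_Icc, Nat.add_sub_cancel] at h1
    have h2 : (((Finset.Icc 1 N).filter (fun n => (S r n - r) / Real.log r ∈ E)).card : ℝ) ≤ N := by
      exact_mod_cast h1
    rw [hcl]
    refine h2.trans ?_
    apply le_mul_of_one_le_left (Nat.cast_nonneg _)
    apply Real.one_le_rpow hr1
    nlinarith [sq_nonneg Real.pi]
  · obtain ⟨r₀, h⟩ := eventually_atTop.1 (Pool.Agent.U403.Ldp.tailUpper (H177.Lat.rhs_of RH) (Real.sqrt m) ε
      (Real.sqrt_pos.2 hm0) hε)
    refine ⟨max r₀ 2, fun r hr => ?_⟩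
    obtain ⟨N₀, hN₀⟩ := eventually_atTop.1 (h r ((le_max_left _ _).trans hr))
    refine ⟨N₀, fun N hN => ?_⟩
    have h1 := hN₀ N hN
    rw [Real.sq_sqrt hm0.le] at h1
    have hr1 : 2 ≤ r := (le_max_right _ _).trans hr
    have hr0 : (0 : ℝ) < r := by positivity
    have hl : 0 < Real.log r := Real.log_pos (by exact_mod_cast hr1)
    have e2 : (r : ℝ) ^ (-(Real.pi ^ 2 * m / 2) + ε) = Real.exp (-((Real.pi ^ 2 * m / 2 - ε) * Real.log r)) := by
      rw [Real.rpow_def_of_pos hr0]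
      congr 1
      ring
    rw [hcl, e2]
    refine le_trans ?_ h1
    have : (Finset.Icc 1 N).filter (fun n => (S r n - r) / Real.log r ∈ E) ⊆ (Finset.Icc 1 N).filter
        (fun n => Real.sqrt m * Real.log r ≤ |Pool.Agent.U403.Ldp.St r n - r|) := by
      intro n hn
      rw [Finset.mem_filter] at hn ⊢
      refine ⟨hn.1, ?_⟩
      have h3 := Real.sqrt_le_sqrt (hm _ hn.2)
      rw [Real.sqrt_sq_eq_abs, abs_div, abs_of_pos hl, le_div_iff₀ hl] at h3
      rw [St_eq]
      exact h3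
    exact_mod_cast Finset.card_le_card this

theorem lower (RH : RiemannHypothesis) (E : Set ℝ) (x ε : ℝ) (hε : 0 < ε) (hx : x ∈ interior E) :
    ∃ r₀ : ℕ, ∀ r : ℕ, r₀ ≤ r → ∃ N₀ : ℕ, ∀ N : ℕ, N₀ ≤ N →
      (r : ℝ) ^ (-(Real.pi ^ 2 * x ^ 2 / 2) - ε) * N ≤ (count E r N : ℝ) := by
  classical
  obtain ⟨a, b, hab, hm, hE⟩ : ∃ a b : ℝ, a < b ∧ IsLeast ((fun x : ℝ => x ^ 2) '' Set.Icc a b) (x ^ 2) ∧
      Set.Icc a b ⊆ E := by
    rw [mem_interior_iff_mem_nhds, Metric.mem_nhds_iff] at hx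
    obtain ⟨η, hη, hb⟩ := hx
    rcases le_or_gt 0 x with h | h
    · refine ⟨x, x + η / 2, by linarith, ⟨⟨x, ⟨le_rfl, by linarith⟩, rfl⟩, ?_⟩, fun y hy => hb ?_⟩
      · rintro _ ⟨y, hy, rfl⟩
        show x ^ 2 ≤ y ^ 2
        nlinarith [hy.1]
      · rw [Metric.mem_ball, Real.dist_eq, abs_lt]
        constructor <;> linarith [hy.1, hy.2]
    · refine ⟨x - η / 2, x, by linarith, ⟨⟨x, ⟨by linarith, le_rfl⟩, rfl⟩, ?_⟩, fun y hy => hb ?_⟩
      · rintro _ ⟨y, hy, rfl⟩
        show x ^ 2 ≤ y ^ 2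
        nlinarith [hy.2]
      · rw [Metric.mem_ball, Real.dist_eq, abs_lt]
        constructor <;> linarith [hy.1, hy.2]
  obtain ⟨r₀, h⟩ := eventually_atTop.1 (Pool.Agent.U403.Ldp.ldp (H177.Lat.rhs_of RH) a b (x ^ 2) ε hab hm hε)
  refine ⟨max r₀ 2, fun r hr => ?_⟩
  obtain ⟨N₀, hN₀⟩ := eventually_atTop.1 (h r ((le_max_left _ _).trans hr))
  refine ⟨N₀, fun N hN => ?_⟩
  obtain ⟨h1, -⟩ := hN₀ N hN
  have hr1 : 2 ≤ r := (le_max_right _ _).trans hr
  have hr0 : (0 : ℝ) < r := by positivity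
  have hl : 0 < Real.log r := Real.log_pos (by exact_mod_cast hr1)
  have hc : (count E r N : ℝ) = (((Finset.Icc 1 N).filter (fun n => (S r n - r) / Real.log r ∈ E)).card : ℝ) := by
    unfold count
    rw [← Set.ncard_coe_finset]
    congr 2
    ext n
    rw [Finset.mem_coe, Finset.mem_filter, Finset.mem_Icc, Set.mem_ofPred_eq, and_assoc]
  have e1 : (r : ℝ) ^ (-(Real.pi ^ 2 * x ^ 2 / 2) - ε) = Real.exp (-((Real.pi ^ 2 * x ^ 2 / 2 + ε) * Real.log r)) := by
    rw [Real.rpow_def_of_pos hr0]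
    congr 1
    ring
  rw [hc, e1]
  refine h1.trans ?_
  have : (Finset.Icc 1 N).filter (fun n => a * Real.log r ≤ Pool.Agent.U403.Ldp.St r n - r ∧
      Pool.Agent.U403.Ldp.St r n - r ≤ b * Real.log r) ⊆ (Finset.Icc 1 N).filter
      (fun n => (S r n - r) / Real.log r ∈ E) := by
    intro n hn
    rw [Finset.mem_filter] at hn ⊢
    rw [St_eq] at hn
    exact ⟨hn.1, hE ⟨(le_div_iff₀ hl).2 hn.2.1, (div_le_iff₀ hl).2 hn.2.2⟩⟩
  exact_mod_cast Finset.card_le_card this

/-- **Large deviations of the sums of consecutive gaps.**  On the Riemann hypothesis, let `E` be ANY set of real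
numbers and `ε > 0`. If `x ^ 2 ≥ m` for all `x ∈ E`, then for all `r ≥ r₀` and `N ≥ N₀(r)` the number of the `n ≤ N`
with `(S_r(n) - r) / log r ∈ E` is at most `r ^ (- π² m / 2 + ε) N`. If `x` is in the interior of `E`, then for all
`r ≥ r₀` and `N ≥ N₀(r)` it is at least `r ^ (- π² x² / 2 - ε) N`. -/
theorem result (RH : RiemannHypothesis) (E : Set ℝ) (ε : ℝ) (hε : 0 < ε) :
    (∀ m : ℝ, (∀ x ∈ E, m ≤ x ^ 2) → ∃ r₀ : ℕ, ∀ r : ℕ, r₀ ≤ r → ∃ N₀ : ℕ, ∀ N : ℕ, N₀ ≤ N →
      (count E r N : ℝ) ≤ (r : ℝ) ^ (-(Real.pi ^ 2 * m / 2) + ε) * N) ∧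
    (∀ x ∈ interior E, ∃ r₀ : ℕ, ∀ r : ℕ, r₀ ≤ r → ∃ N₀ : ℕ, ∀ N : ℕ, N₀ ≤ N →
      (r : ℝ) ^ (-(Real.pi ^ 2 * x ^ 2 / 2) - ε) * N ≤ (count E r N : ℝ)) :=
  ⟨fun m hm => upper RH E m ε hε hm, fun x hx => lower RH E x ε hε hx⟩

end Pool.Agent.Results.MP_21f43f_nt.LargeDeviations
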