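import Pool.Agent.U398.MV.Fin4

set_option autoImplicit false

/-!
# All moments of sums of consecutive gaps and of all linear forms in the unfolded ordinates of the
zeta zeros, unconditionally, up to the scale `log T`

Project MV4: helper398 (lead), helper15, helper688, helper123, helper898, helper600, helper492,
helper251, helper667, helper67, on top of the projects MV, MV2, MV3 (all moments of `S(t)`) and the library
`Pool.Agent.U761.SZ` (helper761), `Pool.Agent.Q97.UM`.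
-/

namespace Pool.Agent.Results.MP_21f43f_nt.MomentsOfGapSums

open scoped Nat

noncomputable section

/-- the number of nontrivial zeros of `ζ` with ordinate in `(0, t]`, with multiplicity -/
def NZ (t : ℝ) : ℕ :=
  ∑ᶠ s ∈ {s : ℂ | riemannZeta s = 0 ∧ 0 < s.re ∧ s.re < 1 ∧ 0 < s.im ∧ s.im ≤ t}, analyticOrderNatAt riemannZeta s

/-- for `n ≥ 1`: the `n`-th positive ordinate of a nontrivial zero, in nondecreasing order, with multiplicity -/
def γ (n : ℕ) : ℝ := sInf {t : ℝ | n ≤ NZ t}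

/-- the normalised gap `δ_n = (γ_{n+1} log γ_{n+1} - γ_n log γ_n) / 2π` -/
def δ (n : ℕ) : ℝ := (γ (n + 1) * Real.log (γ (n + 1)) - γ n * Real.log (γ n)) / (2 * Real.pi)

/-- the unfolded ordinate `(γ_n / 2π) log (γ_n / 2πe)` -/
def u (n : ℕ) : ℝ := γ n / (2 * Real.pi) * Real.log (γ n / (2 * Real.pi)) - γ n / (2 * Real.pi)

/-- the `m`-th moment of the normal law with variance `v`: `(m-1)!! v^(m/2)` for even `m`, else `0` -/
def gaussMoment (m : ℕ) (v : ℝ) : ℝ := if Even m then ((m - 1)‼ : ℝ) * v ^ (m / 2) else 0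

/-- the variance `-(1/(2π²)) ∑_{i,j} c_i c_j log (1 + |a_i - a_j|)` -/
def V {m : ℕ} (c : Fin m → ℝ) (a : Fin m → ℕ) : ℝ :=
  -(1 / (2 * Real.pi ^ 2)) * ∑ i, ∑ j, c i * c j * Real.log (1 + |(a i : ℝ) - a j|)

/-- (1) sums of `r` consecutive normalised gaps; (2) linear forms in the unfolded ordinates. The sum over
`n ∈ Ioc (NZ T) (NZ (2 * T))` is the sum over the zeros with `T < γ_n ≤ 2T`. -/
theorem result :
    (∀ (k : ℕ) (A ε : ℝ), 1 ≤ k → 1 ≤ A → 0 < ε → ∃ C T₀ : ℝ, ∀ T : ℝ, T₀ ≤ T → ∀ r : ℕ, 1 ≤ r →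
      (r : ℝ) ≤ A * Real.log T →
      |(∑ n ∈ Finset.Ioc (NZ T) (NZ (2 * T)), ((∑ j ∈ Finset.range r, δ (n + j)) - r) ^ k) -
          ((NZ (2 * T) : ℝ) - NZ T) * gaussMoment k (Real.log (1 + r) / Real.pi ^ 2)| ≤
        C * ((NZ (2 * T) : ℝ) - NZ T) * (1 + Real.log r) ^ (((k : ℝ) - 1) / 2 + ε)) ∧
    (∀ (k : ℕ) (A ε : ℝ), 1 ≤ k → 1 ≤ A → 0 < ε → ∃ C T₀ : ℝ, ∀ T : ℝ, T₀ ≤ T → ∀ R : ℕ, 1 ≤ R →
      (R : ℝ) ≤ A * Real.log T → ∀ (m : ℕ) (c : Fin m → ℝ) (a : Fin m → ℕ),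
      (∑ i, |c i|) ≤ 1 → (∑ i, c i) = 0 → (∀ i, a i ≤ R) →
      |(∑ n ∈ Finset.Ioc (NZ T) (NZ (2 * T)), (∑ i, c i * (u (n + a i) - a i)) ^ k) -
          ((NZ (2 * T) : ℝ) - NZ T) * gaussMoment k (V c a)| ≤
        C * ((NZ (2 * T) : ℝ) - NZ T) * (1 + Real.log R) ^ (((k : ℝ) - 1) / 2 + ε)) := by
  have hg : ∀ r n : ℕ, ∑ j ∈ Finset.range r, δ (n + j) = Pool.Agent.U398.MV.gsum SG.ord r n := by
    intro r n
    induction r with
    | zero => simp [Pool.Agent.U398.MV.gsum]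
    | succ r ih =>
      rw [Finset.sum_range_succ, ih]
      unfold Pool.Agent.U398.MV.gsum
      have e1 : δ (n + r) = (SG.ord (n + r + 1) * Real.log (SG.ord (n + r + 1)) -
        SG.ord (n + r) * Real.log (SG.ord (n + r))) / (2 * Real.pi) := rfl
      rw [e1, ← add_assoc]
      ring
  constructor
  · intro k A ε hk hA hε
    obtain ⟨C, T0, -, -, H⟩ := Pool.Agent.U398.MV.gs4 k A ε hk hA hε
    refine ⟨C, T0, fun T hT r h1 h2 => ?_⟩
    have := H T hT r h1 h2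
    simp_rw [hg]
    exact this
  · intro k A ε hk hA hε
    obtain ⟨C, T0, -, -, H⟩ := Pool.Agent.U398.MV.th4 k A ε hk hA hε
    exact ⟨C, T0, fun T hT R h1 h2 m c a h3 h4 h5 => H T hT R h1 h2 m c a h3 h4 h5⟩

end

end Pool.Agent.Results.MP_21f43f_nt.MomentsOfGapSums
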