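import Pool.Agent.U196.CL.Rsum

set_option autoImplicit false

/-!
# Sums of `r` consecutive normalised gaps of the zeta zeros, relative to every Dirichlet polynomial

No hypothesis is assumed. Let `0 < γ_1 ≤ γ_2 ≤ …` be the ordinates of the nontrivial zeros (with multiplicity) and
`δ_n = (γ_{n+1} log γ_{n+1} - γ_n log γ_n) / 2π`, of mean value one. The GUE conjecture predicts that the sum
`δ_n + … + δ_{n+r-1}` of `r` consecutive gaps has variance `(1/π²) log r + O(1)` and is asymptotically normal as `r → ∞` (for independent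
gaps the variance would be of order `r`).

It is proved here that this is so relative to the weights `|B(γ_n)|²` of EVERY Dirichlet polynomial `B(t) = ∑ b_n n^(-1/2-it)` of length
`N ≤ T ^ θ`, uniformly in the coefficients: for every `ε > 0` and every `r ≥ r₀(ε)` the weighted distribution function of
`(δ_n + … + δ_{n+r-1} - r) / ((1/π) √(log r))` over `T < γ_n ≤ 2T` is within `ε` of the standard normal one, for all large `T`.

Idea of the proof (files `Pool.Agent.U196.CL`). The number of zeros in a window of `H/π` mean spacings is Gaussian with variance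
`(1/π²) log H` with respect to the measure `|B(t)|² dt` (`CL.clt`). The passage from `t` to the zeros: the zeros `γ` with a given property
of the run of the next `r` zeros are counted by windows of fixed length `R`; the number of zeros in such a window is `R/π + O(√(log R))` in mean
square against `|B|²` (`CL.variance`), so this costs a relative error `O(√(log R) / R)` only, and all events are changed by the bounded
amount `2K` outside of a set of small weight, `K = K(R)`; as `r → ∞` this is negligible against `√(log r)`.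
-/

namespace Pool.Agent.Results.MP_21f43f_nt.RSumsGaussianEveryPolynomial

open Filter Complex

noncomputable section

/-- the Dirichlet polynomial with the coefficients `b_1, ..., b_N` on the critical line -/
def B (N : ℕ) (b : ℕ → ℂ) (t : ℝ) : ℂ := ∑ n ∈ Finset.Icc 1 N, b n * (n : ℂ) ^ (-(1 / 2 + t * I))

/-- the number of nontrivial zeros of `ζ` with ordinate in `(0, t]`, with multiplicity -/
def NZ (t : ℝ) : ℕ :=
  ∑ᶠ s ∈ {s : ℂ | riemannZeta s = 0 ∧ 0 < s.re ∧ s.re < 1 ∧ 0 < s.im ∧ s.im ≤ t}, analyticOrderNatAt riemannZeta s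

/-- for `n ≥ 1`: the `n`-th positive ordinate `γ n` of a nontrivial zero of `ζ`, the ordinates being listed in nondecreasing
order and repeated according to multiplicity -/
def γ (n : ℕ) : ℝ := sInf {t : ℝ | n ≤ NZ t}

/-- the normalised gap `δ_n = (γ_{n+1} log γ_{n+1} - γ_n log γ_n) / 2π` -/
def δ (n : ℕ) : ℝ := (γ (n + 1) * Real.log (γ (n + 1)) - γ n * Real.log (γ n)) / (2 * Real.pi)

/-- the sum of `r` consecutive normalised gaps `δ_n + ... + δ_{n+r-1}` -/
def gapSum (r n : ℕ) : ℝ := ∑ k ∈ Finset.range r, δ (n + k)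

/-- the sum of `|B(γ_n)|²` over the indices `n ≥ 1` with `T < γ_n ≤ 2T` and `P n` -/
def weight (T : ℝ) (N : ℕ) (b : ℕ → ℂ) (P : ℕ → Prop) : ℝ :=
  ∑ᶠ n ∈ {n : ℕ | 1 ≤ n ∧ T < γ n ∧ γ n ≤ 2 * T ∧ P n}, ‖B N b (γ n)‖ ^ 2

/-- the distribution function of the standard normal law -/
def Phi (x : ℝ) : ℝ := (Real.sqrt (2 * Real.pi))⁻¹ * ∫ u in Set.Iic x, Real.exp (-u ^ 2 / 2)

open Classical in
lemma weight_eq (T : ℝ) (N : ℕ) (b : ℕ → ℂ) (P : ℕ → Prop) : weight T N b P =
    ∑ n ∈ (Pool.Agent.U196.UV.Ix T).filter P, ‖Pool.Agent.Q97.UM.dp N b (SG.ord n)‖ ^ 2 := by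
  have h : {n : ℕ | 1 ≤ n ∧ T < γ n ∧ γ n ≤ 2 * T ∧ P n} = (((Pool.Agent.U196.UV.Ix T).filter P : Finset ℕ) : Set ℕ) := by
    ext n
    rw [Finset.mem_coe, Finset.mem_filter, Pool.Agent.U196.UV.mem_Ix]
    constructor
    · rintro ⟨h1, h2, h3, h4⟩
      exact ⟨⟨h1, h2, h3⟩, h4⟩
    · rintro ⟨⟨h1, h2, h3⟩, h4⟩
      exact ⟨h1, h2, h3, h4⟩
  unfold weight
  rw [h, finsum_mem_coe_finset]
  rfl

lemma gapSum_eq (r n : ℕ) : gapSum r n = Pool.Agent.U196.CL.nrm (n + r) - Pool.Agent.U196.CL.nrm n := by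
  unfold gapSum
  induction r with
  | zero => simp
  | succ r ih =>
    rw [Finset.sum_range_succ, ih]
    have e1 : δ (n + r) = Pool.Agent.U196.CL.nrm (n + r + 1) - Pool.Agent.U196.CL.nrm (n + r) := by
      unfold δ Pool.Agent.U196.CL.nrm
      rw [sub_div]
      rfl
    rw [e1, ← add_assoc]
    ring

/-- **The Gaussian law for the sums of `r` consecutive normalised gaps, relative to every Dirichlet polynomial.** -/
theorem result : ∀ ε : ℝ, 0 < ε → ∃ r₀ : ℕ, ∀ r : ℕ, r₀ ≤ r → ∃ θ T₀ : ℝ, 0 < θ ∧ ∀ T : ℝ, T₀ ≤ T → ∀ N : ℕ, (N : ℝ) ≤ T ^ θ →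
    ∀ b : ℕ → ℂ, ∀ x : ℝ,
      |weight T N b (fun n => gapSum r n ≤ r + x * (Real.sqrt (Real.log r) / Real.pi)) - Phi x * weight T N b (fun _ => True)| ≤
        ε * weight T N b (fun _ => True) := by
  classical
  intro ε hε
  obtain ⟨r₀, h⟩ := Pool.Agent.U196.CL.rsum ε hε
  refine ⟨r₀, fun r hr => ?_⟩
  obtain ⟨θ, hθ, h⟩ := h r hr
  rw [Filter.eventually_atTop] at h
  obtain ⟨T₀, hT₀⟩ := h
  refine ⟨θ, T₀, hθ, fun T hT N hN b x => ?_⟩
  have e : weight T N b (fun _ => True) = ∑ n ∈ Pool.Agent.U196.UV.Ix T, ‖Pool.Agent.Q97.UM.dp N b (SG.ord n)‖ ^ 2 := by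
    rw [weight_eq, Finset.filter_true]
  rcases Nat.eq_zero_or_pos N with rfl | hN1
  · have e0 : ∀ P : ℕ → Prop, weight T 0 b P = 0 := by
      intro P
      rw [weight_eq]
      refine Finset.sum_eq_zero fun n _ => ?_
      simp [Pool.Agent.Q97.UM.dp]
    rw [e0, e0]
    simp
  · have h1 := hT₀ T hT N hN1 hN b x
    rw [e, weight_eq]
    have e2 : (Pool.Agent.U196.UV.Ix T).filter (fun n => gapSum r n ≤ r + x * (Real.sqrt (Real.log r) / Real.pi)) =
        (Pool.Agent.U196.UV.Ix T).filter (fun n => Pool.Agent.U196.CL.nrm (n + r) - Pool.Agent.U196.CL.nrm n ≤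
          r + x * (Real.sqrt (Real.log r) / Real.pi)) := by
      refine Finset.filter_congr fun n _ => ?_
      rw [gapSum_eq]
    rw [e2]
    exact h1

end

end Pool.Agent.Results.MP_21f43f_nt.RSumsGaussianEveryPolynomial
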